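import Pool.Agent.Lib.MP_a688ad_al.T2.Act

/-!
# Derivatives with respect to one variable and the operators `DE`
-/

set_option autoImplicit false

open MvPolynomial Finset

namespace Pool.Agent.Lib.MP_a688ad_al

namespace T4

open T2

theorem der_fsum {σ ι : Type*} (s : Finset ι)
    (D : ι → Derivation ℂ (MvPolynomial σ ℂ) (MvPolynomial σ ℂ)) (F : MvPolynomial σ ℂ) :
    (∑ p ∈ s, D p) F = ∑ p ∈ s, D p F := by
  classical
  induction s using Finset.induction_on with
  | empty => simp
  | insert a s ha ih => rw [Finset.sum_insert ha, Finset.sum_insert ha, Derivation.add_apply, ih]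

/-- A derivation is the sum of the partial derivatives. -/
theorem der_sum {σ : Type*} [Fintype σ]
    (D : Derivation ℂ (MvPolynomial σ ℂ) (MvPolynomial σ ℂ)) (F : MvPolynomial σ ℂ) :
    D F = ∑ p, pderiv p F * D (X p) := by
  classical
  have h : D = ∑ p, D (X p) • pderiv p := by
    apply derivation_ext
    intro q
    rw [der_fsum]
    simp only [Derivation.smul_apply, pderiv_X, smul_eq_mul]
    rw [Finset.sum_eq_single q]
    · simp
    · intro b _ hb
      rw [Pi.single_apply, if_neg (fun h => hb h.symm), mul_zero]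
    · intro h
      exact (h (Finset.mem_univ _)).elim
  conv_lhs => rw [h]
  rw [der_fsum]
  refine Finset.sum_congr rfl fun p _ => ?_
  rw [Derivation.smul_apply, smul_eq_mul, mul_comm]

/-- In characteristic zero a variable occurs only if the derivative is not zero. -/
theorem exists_of_mem_vars {σ : Type*} {F : MvPolynomial σ ℂ} {p : σ} (h : p ∈ F.vars) :
    pderiv p F ≠ 0 := by
  classical
  obtain ⟨d, hd, hp⟩ := (mem_vars_iff_mem_support p).1 h
  intro h0
  have h1 := coeff_pderiv (i := p) F (d - Finsupp.single p 1)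
  rw [h0, coeff_zero, Finsupp.sub_add_single_one_cancel (Finsupp.mem_support_iff.1 hp)] at h1
  have h2 : (((d - Finsupp.single p 1 : σ →₀ ℕ) p : ℕ) : ℂ) + 1 ≠ 0 := Nat.cast_add_one_ne_zero _
  exact mul_ne_zero (mem_support_iff.1 hd) h2 h1.symm

/-- A monomial which contains a variable with nonzero derivative. -/
theorem exists_mon {σ : Type*} {F : MvPolynomial σ ℂ} {p : σ} (h : pderiv p F ≠ 0) :
    ∃ d, coeff d F ≠ 0 ∧ d p ≠ 0 := by
  classical
  obtain ⟨d, hd⟩ := MvPolynomial.ne_zero_iff.1 h
  rw [coeff_pderiv] at hd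
  refine ⟨d + Finsupp.single p 1, left_ne_zero_of_mul hd, ?_⟩
  rw [Finsupp.add_apply, Finsupp.single_eq_same]
  omega

variable {r k : ℕ}

theorem DE_X (i j : Fin r) (p : Ib r k) : DE i j (X p : MvPolynomial (Ib r k) ℂ)
    = (if p.1 = j then X (i, p.2) else 0) + ((p.2.1.count j : ℕ) : ℂ) • X (p.1, rp p.2 j i) :=
  mkDerivation_X _ _ _

theorem rp_val {S : Sym (Fin r) k} {j : Fin r} (i : Fin r) (h : j ∈ S.1) :
    (rp S j i).1 = i ::ₘ S.1.erase j := by
  unfold rp
  rw [dif_pos h]

theorem rp_inj {S S' : Sym (Fin r) k} {j i : Fin r} (h : j ∈ S.1) (h' : j ∈ S'.1)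
    (e : rp S j i = rp S' j i) : S = S' := by
  have e1 := congrArg Subtype.val e
  rw [rp_val i h, rp_val i h', Multiset.cons_inj_right] at e1
  apply Subtype.ext
  rw [← Multiset.cons_erase h, ← Multiset.cons_erase h', e1]

theorem pderiv_X' {σ : Type*} [DecidableEq σ] (p q : σ) :
    pderiv p (X q : MvPolynomial σ ℂ) = C (if q = p then (1 : ℂ) else 0) := by
  rw [pderiv_X, Pi.single_apply]
  split_ifs <;> simp

/-- The commutator of `∂/∂X(i,U)` with `x_a ∂/∂x_j`, where `U` is `S` with one `j` replaced by `a`. -/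
theorem pd_DE (i a j : Fin r) (S : Sym (Fin r) k) (hj : j ∈ S.1)
    (F : MvPolynomial (Ib r k) ℂ) :
    pderiv ((i, rp S j a) : Ib r k) (DE a j F) = DE a j (pderiv (i, rp S j a) F)
      + (if i = a then (1 : ℂ) else 0) • pderiv (j, rp S j a) F
      + ((S.1.count j : ℕ) : ℂ) • pderiv (i, S) F := by
  classical
  have h : ⁅(pderiv ((i, rp S j a) : Ib r k) :
        Derivation ℂ (MvPolynomial (Ib r k) ℂ) (MvPolynomial (Ib r k) ℂ)), DE a j⁆
      = (if i = a then (1 : ℂ) else 0) • pderiv ((j, rp S j a) : Ib r k)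
        + ((S.1.count j : ℕ) : ℂ) • pderiv ((i, S) : Ib r k) := by
    apply derivation_ext
    rintro ⟨u, T⟩
    rw [Derivation.commutator_apply, Derivation.add_apply, Derivation.smul_apply,
      Derivation.smul_apply, DE_X, pderiv_X', pderiv_X', pderiv_X', derivation_C, sub_zero, map_add,
      Derivation.map_smul, pderiv_X']
    congr 1
    · have e : (pderiv ((i, rp S j a) : Ib r k)) (if u = j then (X (a, T) : MvPolynomial _ ℂ) else 0)
          = if u = j then C (if ((a, T) : Ib r k) = (i, rp S j a) then (1 : ℂ) else 0) else 0 := by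
        split_ifs with h1 h2
        · rw [pderiv_X', if_pos h2]
        · rw [pderiv_X', if_neg h2]
        · rw [map_zero]
      show (pderiv ((i, rp S j a) : Ib r k)) (if u = j then (X (a, T) : MvPolynomial _ ℂ) else 0) = _
      rw [e, smul_eq_C_mul, ← C_mul]
      by_cases h1 : u = j
      · rw [if_pos h1]
        congr 1
        by_cases h2 : i = a
        · rw [if_pos h2, one_mul]
          simp only [Prod.mk.injEq, h1, h2, true_and]
        · rw [if_neg h2, zero_mul]
          rw [if_neg]
          intro h3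
          exact h2 (congrArg Prod.fst h3).symm
      · rw [if_neg h1, if_neg (fun h3 => h1 (congrArg Prod.fst h3)), mul_zero, C_0]
    · show ((T.1.count j : ℕ) : ℂ) • C (if ((u, rp T j a) : Ib r k) = (i, rp S j a)
        then (1 : ℂ) else 0) = _
      rw [smul_eq_C_mul, smul_eq_C_mul, ← C_mul, ← C_mul]
      congr 1
      by_cases h1 : j ∈ T.1
      · by_cases h2 : T = S
        · subst h2
          simp only [Prod.mk.injEq, and_true]
        · rw [if_neg, if_neg, mul_zero, mul_zero]
          · intro h3
            exact h2 (congrArg Prod.snd h3)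
          · intro h3
            exact h2 (rp_inj h1 hj (congrArg Prod.snd h3))
      · rw [Multiset.count_eq_zero_of_notMem h1, Nat.cast_zero, zero_mul, if_neg, mul_zero]
        intro h3
        apply h1
        have h4 : T = S := congrArg Prod.snd h3
        rw [h4]
        exact hj
  have h1 := congrArg (fun D => D F) h
  simp only [Derivation.commutator_apply, Derivation.add_apply, Derivation.smul_apply] at h1
  rw [sub_eq_iff_eq_add] at h1
  rw [h1]
  abel

/-- `∂/∂Y` commutes with `x_a ∂/∂x_j` if `Y` does not contain `a`. -/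
theorem pd_DE0 (a j : Fin r) (Y : Ib r k) (h1 : Y.1 ≠ a) (h2 : a ∉ Y.2.1)
    (F : MvPolynomial (Ib r k) ℂ) :
    pderiv Y (DE a j F) = DE a j (pderiv Y F) := by
  classical
  have h : ⁅(pderiv Y : Derivation ℂ (MvPolynomial (Ib r k) ℂ) (MvPolynomial (Ib r k) ℂ)),
      (DE a j : Derivation ℂ (MvPolynomial (Ib r k) ℂ) (MvPolynomial (Ib r k) ℂ))⁆ = 0 := by
    apply derivation_ext
    rintro ⟨u, T⟩
    rw [Derivation.commutator_apply, Derivation.zero_apply, DE_X, pderiv_X', derivation_C, sub_zero,
      map_add, Derivation.map_smul, pderiv_X']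
    have e1 : (pderiv Y) (if u = j then (X (a, T) : MvPolynomial _ ℂ) else 0) = 0 := by
      split_ifs with h3
      · rw [pderiv_X', if_neg, C_0]
        intro h4
        exact h1 (congrArg Prod.fst h4).symm
      · rw [map_zero]
    show (pderiv Y) (if u = j then (X (a, T) : MvPolynomial _ ℂ) else 0)
      + ((T.1.count j : ℕ) : ℂ) • C (if ((u, rp T j a) : Ib r k) = Y then (1 : ℂ) else 0) = 0
    rw [e1, zero_add]
    by_cases h3 : j ∈ T.1
    · rw [if_neg, C_0, smul_zero]
      intro h4
      apply h2
      rw [← h4]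
      show a ∈ (rp T j a).1
      rw [rp_val a h3]
      exact Multiset.mem_cons_self _ _
    · rw [Multiset.count_eq_zero_of_notMem h3, Nat.cast_zero, zero_smul]
  have h3 := congrArg (fun D => D F) h
  simp only [Derivation.commutator_apply, Derivation.zero_apply] at h3
  exact sub_eq_zero.1 h3

end T4

end Pool.Agent.Lib.MP_a688ad_al
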