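import Pool.Agent.Lib.MP_a688ad_al.T4.Up

/-!
# The variables with few letters, and the substitution which kills some of them
-/

set_option autoImplicit false

open MvPolynomial Finset

namespace Pool.Agent.Lib.MP_a688ad_al

namespace T4

open T2

/-- The multiset `a^k`. -/
def rep {r : ℕ} (a : Fin r) (k : ℕ) : Sym (Fin r) k :=
  ⟨Multiset.replicate k a, Multiset.card_replicate _ _⟩

variable {s l : ℕ}

/-- The variable `X(0, 0^k)`. -/
def zz (s k : ℕ) : Ib (s + 1) k := (0, rep 0 k)

/-- The variable `X(j, 0^k)`. -/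
def vA {s : ℕ} (k : ℕ) (j : Fin (s + 1)) : Ib (s + 1) k := (j, rep 0 k)

/-- The variable `X(0, 0^l j)`. -/
def vB {s : ℕ} (l : ℕ) (j : Fin (s + 1)) : Ib (s + 1) (l + 1) :=
  (0, ⟨j ::ₘ Multiset.replicate l 0, by rw [Multiset.card_cons, Multiset.card_replicate]⟩)

/-- The variables which are killed. -/
def kil (p : Ib (s + 1) (l + 1)) : Prop :=
  p = zz s (l + 1) ∨ ∃ j : Fin (s + 1), 3 ≤ (j : ℕ) ∧ (p = vA (l + 1) j ∨ p = vB l j)

theorem eq_rep {r k : ℕ} {a : Fin r} {S : Sym (Fin r) k} (h : S.1.count a = k) : S = rep a k := by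
  apply Subtype.ext
  show S.1 = Multiset.replicate k a
  rw [Multiset.eq_replicate]
  refine ⟨S.2, fun b hb => ?_⟩
  have h1 : S.1.count a = Multiset.card S.1 := by rw [h, S.2]
  exact (Multiset.count_eq_card.1 h1 b hb).symm

theorem eq_cons {r l : ℕ} {a : Fin r} {S : Sym (Fin r) (l + 1)} (h : S.1.count a = l) :
    ∃ j, j ≠ a ∧ S.1 = j ::ₘ Multiset.replicate l a := by
  have h2 : ∃ j ∈ S.1, j ≠ a := by
    by_contra hcon
    push Not at hcon
    have h3 : S.1.count a = Multiset.card S.1 :=
      Multiset.count_eq_card.2 fun x hx => (hcon x hx).symm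
    rw [S.2] at h3
    omega
  obtain ⟨j, hj, hja⟩ := h2
  refine ⟨j, hja, ?_⟩
  rw [← Multiset.cons_erase hj]
  congr 1
  have h3 : Multiset.card (S.1.erase j) = l := by
    rw [Multiset.card_erase_of_mem hj, S.2]
    rfl
  rw [Multiset.eq_replicate]
  refine ⟨h3, fun b hb => ?_⟩
  have h4 : (S.1.erase j).count a = Multiset.card (S.1.erase j) := by
    rw [Multiset.count_erase_of_ne hja.symm, h, h3]
  exact (Multiset.count_eq_card.1 h4 b hb).symm

theorem wt_eq {r k : ℕ} (p : Ib r k) (i : Fin r) :
    wt p i = (if p.1 = i then 1 else 0) + (p.2.1.count i : ℤ) := by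
  unfold wt
  rw [Pi.add_apply, sum_sg_count]
  unfold sg
  rw [Pi.single_apply]
  simp only [eq_comm]

/-- A variable which is not killed has weight at least two. -/
theorem two_le (p : Ib (s + 3) (l + 1)) (h : ¬ kil p) :
    2 ≤ (∑ i : Fin (s + 2), wt p i.succ) + wt p 1 + wt p 2 := by
  have h1 : wt p 0 + ∑ i : Fin (s + 2), wt p i.succ = ((l + 1 : ℕ) : ℤ) + 1 := by
    rw [← Fin.sum_univ_succ, sum_wt]
  have n1 := wt_nonneg p 1
  have n2 := wt_nonneg p 2
  have h01 : ((0 : Fin (s + 3)) : ℕ) = 0 := rfl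
  obtain ⟨u, S⟩ := p
  rw [wt_eq _ 0] at h1
  have hc : S.1.count 0 ≤ l + 1 := (Multiset.count_le_card 0 S.1).trans S.2.le
  have key : ∀ j : Fin (s + 3), j ≠ 0 → ¬ 3 ≤ (j : ℕ) → (j = 1 ∨ j = 2) := by
    intro j h2 h3
    have h4 : (j : ℕ) ≠ 0 := fun h => h2 (Fin.ext h)
    have h5 : (j : ℕ) = 1 ∨ (j : ℕ) = 2 := by omega
    rcases h5 with h5 | h5
    · exact Or.inl (Fin.ext (by rw [h5]; rfl))
    · exact Or.inr (Fin.ext (by rw [h5]; rfl))
  by_cases hu : u = 0
  · subst hu
    simp only [if_true] at h1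
    rcases Nat.lt_trichotomy (S.1.count 0) l with h2 | h2 | h2
    · omega
    · obtain ⟨j, hj, hS⟩ := eq_cons h2
      have h3 : ¬ 3 ≤ (j : ℕ) := by
        intro h3
        apply h
        right
        refine ⟨j, h3, Or.inr (Prod.ext rfl (Subtype.ext hS))⟩
      have h4 : 1 ≤ wt ((0, S) : Ib (s + 3) (l + 1)) 1 + wt ((0, S) : Ib (s + 3) (l + 1)) 2 := by
        rcases key j hj h3 with h5 | h5
        · have : 1 ≤ wt ((0, S) : Ib (s + 3) (l + 1)) 1 := by
            rw [wt_eq]
            have : 0 < S.1.count 1 := by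
              rw [hS, h5]
              exact Multiset.count_pos.2 (Multiset.mem_cons_self _ _)
            simp only
            split_ifs <;> omega
          omega
        · have : 1 ≤ wt ((0, S) : Ib (s + 3) (l + 1)) 2 := by
            rw [wt_eq]
            have : 0 < S.1.count 2 := by
              rw [hS, h5]
              exact Multiset.count_pos.2 (Multiset.mem_cons_self _ _)
            simp only
            split_ifs <;> omega
          omega
      omega
    · have h3 : S.1.count 0 = l + 1 := by omega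
      exact (h (Or.inl (Prod.ext rfl (eq_rep h3)))).elim
  · simp only [if_neg hu] at h1
    by_cases h2 : S.1.count 0 = l + 1
    · have h3 : ¬ 3 ≤ (u : ℕ) := by
        intro h3
        apply h
        right
        exact ⟨u, h3, Or.inl (Prod.ext rfl (eq_rep h2))⟩
      have h4 : 1 ≤ wt ((u, S) : Ib (s + 3) (l + 1)) 1 + wt ((u, S) : Ib (s + 3) (l + 1)) 2 := by
        rcases key u hu h3 with h5 | h5
        · have : 1 ≤ wt ((u, S) : Ib (s + 3) (l + 1)) 1 := by
            rw [wt_eq]
            simp only [if_pos h5]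
            omega
          omega
        · have : 1 ≤ wt ((u, S) : Ib (s + 3) (l + 1)) 2 := by
            rw [wt_eq]
            simp only [if_pos h5]
            omega
          omega
      omega
    · omega

open Classical in
/-- The substitution. -/
noncomputable def pii (s l : ℕ) : MvPolynomial (Ib (s + 1) (l + 1)) ℂ →ₐ[ℂ]
    MvPolynomial (Ib (s + 1) (l + 1)) ℂ :=
  aeval (fun p => if kil p then 0 else X p)

theorem pii_X {p : Ib (s + 1) (l + 1)} (h : ¬ kil p) : pii s l (X p) = X p := by
  unfold pii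
  rw [aeval_X, if_neg h]

theorem pii_X0 {p : Ib (s + 1) (l + 1)} (h : kil p) : pii s l (X p) = 0 := by
  unfold pii
  rw [aeval_X, if_pos h]

theorem pii_monomial0 {u : Ib (s + 1) (l + 1) →₀ ℕ} (c : ℂ) (h : ∃ p, kil p ∧ u p ≠ 0) :
    pii s l (monomial u c) = 0 := by
  obtain ⟨p, hp, hu⟩ := h
  unfold pii
  rw [aeval_monomial, Finsupp.prod, Finset.prod_eq_zero (Finsupp.mem_support_iff.2 hu), mul_zero]
  rw [if_pos hp, zero_pow hu]

theorem pii_monomial {u : Ib (s + 1) (l + 1) →₀ ℕ} (c : ℂ) (h : ∀ p, kil p → u p = 0) :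
    pii s l (monomial u c) = monomial u c := by
  have h1 : monomial u c = C c * u.prod fun p k => (X p : MvPolynomial (Ib (s + 1) (l + 1)) ℂ) ^ k :=
    monomial_eq
  unfold pii
  rw [aeval_monomial, h1]
  congr 1
  refine Finset.prod_congr rfl fun p hp => ?_
  simp only
  rw [if_neg]
  intro hk
  exact (Finsupp.mem_support_iff.1 hp) (h p hk)

theorem coeff_pii {d : Ib (s + 1) (l + 1) →₀ ℕ} (h : ∀ p, kil p → d p = 0)
    (F : MvPolynomial (Ib (s + 1) (l + 1)) ℂ) : coeff d (pii s l F) = coeff d F := by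
  classical
  induction F using MvPolynomial.induction_on' with
  | monomial u a =>
    by_cases hu : ∃ p, kil p ∧ u p ≠ 0
    · rw [pii_monomial0 a hu, coeff_zero, coeff_monomial, if_neg]
      rintro rfl
      obtain ⟨p, hp, hp0⟩ := hu
      exact hp0 (h p hp)
    · push Not at hu
      rw [pii_monomial a hu]
  | add p q hp hq => rw [map_add, coeff_add, coeff_add, hp, hq]

theorem coeff_pii0 {d : Ib (s + 1) (l + 1) →₀ ℕ} (h : ∃ p, kil p ∧ d p ≠ 0)
    (F : MvPolynomial (Ib (s + 1) (l + 1)) ℂ) : coeff d (pii s l F) = 0 := by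
  classical
  induction F using MvPolynomial.induction_on' with
  | monomial u a =>
    by_cases hu : ∃ p, kil p ∧ u p ≠ 0
    · rw [pii_monomial0 a hu, coeff_zero]
    · push Not at hu
      rw [pii_monomial a hu, coeff_monomial, if_neg]
      rintro rfl
      obtain ⟨p, hp, hp0⟩ := h
      exact hp0 (hu p hp)
  | add p q hp hq => rw [map_add, coeff_add, hp, hq, add_zero]

/-- The substitution commutes with the derivative with respect to a variable which is not killed. -/
theorem pd_pii {p : Ib (s + 1) (l + 1)} (h : ¬ kil p) (F : MvPolynomial (Ib (s + 1) (l + 1)) ℂ) :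
    pderiv p (pii s l F) = pii s l (pderiv p F) := by
  classical
  induction F using MvPolynomial.induction_on with
  | C a => rw [derivation_C, map_zero]; unfold pii; rw [aeval_C]; exact derivation_C _ _
  | add p q hp hq => rw [map_add, map_add, map_add, map_add, hp, hq]
  | mul_X q a hq =>
    have e : pderiv p (pii s l (X a)) = pii s l (pderiv p (X a)) := by
      by_cases ha : kil a
      · have hne : a ≠ p := fun h1 => h (h1 ▸ ha)
        rw [pii_X0 ha, map_zero, pderiv_X_of_ne hne, map_zero]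
      · rw [pii_X ha, pderiv_X']
        unfold pii
        rw [aeval_C]
        rfl
    rw [map_mul, Derivation.leibniz, Derivation.leibniz, hq, e, map_add]
    simp only [smul_eq_mul, map_mul]

end T4

end Pool.Agent.Lib.MP_a688ad_al
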