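import Pool.Agent.Lib.MP_a688ad_al.T4.Mul
import Pool.Agent.Lib.MP_a688ad_al.T2.Ch

/-!
# The inequality for short second rows and beyond the stable range
-/

set_option autoImplicit false

open MvPolynomial Finset

namespace Pool.Agent.Lib.MP_a688ad_al

namespace T4

open T2

section

variable {s : ℕ}

/-- The weight `((k + 1) n - |μ|, μ)`. -/
def nu (k n : ℕ) (μ : Fin s → ℤ) : Fin (s + 1) → ℤ :=
  Fin.cons (((k : ℤ) + 1) * n - ∑ i, μ i) μ

theorem nu_k (k n : ℕ) (μ : Fin s → ℤ) : nu (k + 1) n μ = nu k n μ + (n : ℤ) • sg 0 := by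
  funext i
  rw [Pi.add_apply, Pi.smul_apply]
  refine Fin.cases ?_ (fun w => ?_) i
  · unfold nu sg
    rw [Fin.cons_zero, Fin.cons_zero, Pi.single_eq_same]
    push_cast
    simp only [smul_eq_mul]
    ring
  · unfold nu sg
    rw [Fin.cons_succ, Fin.cons_succ, Pi.single_apply, if_neg (Fin.succ_ne_zero w), smul_zero,
      add_zero]

theorem nu_n (k n : ℕ) (μ : Fin s → ℤ) : nu k (n + 1) μ = nu k n μ + ((k : ℤ) + 1) • sg 0 := by
  funext i
  rw [Pi.add_apply, Pi.smul_apply]
  refine Fin.cases ?_ (fun w => ?_) i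
  · unfold nu sg
    rw [Fin.cons_zero, Fin.cons_zero, Pi.single_eq_same]
    push_cast
    simp only [smul_eq_mul]
    ring
  · unfold nu sg
    rw [Fin.cons_succ, Fin.cons_succ, Pi.single_apply, if_neg (Fin.succ_ne_zero w), smul_zero,
      add_zero]

/-- The multiplicity. -/
noncomputable def cc (k n : ℕ) (μ : Fin s → ℤ) : ℕ :=
  Module.finrank ℂ ((Gl (s + 1) k n).HW (nu k n μ))

theorem cc_k {k k' : ℕ} (h : k ≤ k') (n : ℕ) (μ : Fin s → ℤ) : cc k n μ ≤ cc k' n μ := by
  induction h with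
  | refl => exact le_rfl
  | step _ ih =>
    refine ih.trans ?_
    unfold cc
    rw [nu_k]
    exact up_le _ _

theorem cc_n (k : ℕ) {n n' : ℕ} (h : n ≤ n') (μ : Fin s → ℤ) : cc k n μ ≤ cc k n' μ := by
  induction h with
  | refl => exact le_rfl
  | step _ ih =>
    refine ih.trans ?_
    unfold cc
    rw [nu_n]
    exact mul_le _ _

theorem cc_k' {k k' : ℕ} (h : k ≤ k') (n : ℕ) (μ : Fin (s + 1) → ℤ) (hμ : μ 0 ≤ k) :
    cc k' n μ ≤ cc k n μ := by
  induction h with
  | refl => exact le_rfl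
  | @step m hm ih =>
    refine le_trans ?_ ih
    unfold cc
    rw [nu_k]
    apply down_le
    have e : nu m n μ 1 = μ 0 := rfl
    rw [e]
    have : (k : ℤ) ≤ m := by exact_mod_cast hm
    omega

theorem cc_n' (l : ℕ) {n n' : ℕ} (h : n ≤ n') (μ : Fin (s + 2) → ℤ)
    (hμ : (∑ i, μ i) + μ 0 + μ 1 ≤ 2 * n + 1) : cc (l + 1) n' μ ≤ cc (l + 1) n μ := by
  induction h with
  | refl => exact le_rfl
  | @step m hm ih =>
    refine le_trans ?_ ih
    unfold cc
    rw [nu_n]
    apply mul_ge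
    have e : ∀ i, nu (l + 1) m μ (Fin.succ i) = μ i := fun i => rfl
    have e1 : nu (l + 1) m μ 1 = μ 0 := rfl
    have e2 : nu (l + 1) m μ 2 = μ 1 := rfl
    simp only [e, e1, e2]
    have : (n : ℤ) ≤ m := by exact_mod_cast hm
    omega

theorem sc_eq (k n : ℕ) (lam : Fin (s + 1) → ℕ) (hl : Antitone lam)
    (hs : ∑ i, lam i = (k + 1) * n) :
    schurCoeff (pleth (s + 1) n (k + 1)) lam = (cc k n (fun i => (lam i.succ : ℤ)) : ℤ) := by
  rw [kCh (s + 1) k n lam hl hs]
  have e : nu k n (fun i => (lam i.succ : ℤ)) = fun i => (lam i : ℤ) := by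
    funext i
    refine Fin.cases ?_ (fun w => ?_) i
    · unfold nu
      rw [Fin.cons_zero]
      have h : (∑ i, (lam i : ℤ)) = ((k : ℤ) + 1) * n := by exact_mod_cast hs
      rw [Fin.sum_univ_succ] at h
      linarith
    · unfold nu
      rw [Fin.cons_succ]
  unfold cc
  rw [e]

end

theorem three_le_card {r : ℕ} (lam : Fin (r + 3) → ℕ) (h0 : lam 0 ≠ 0) (h1 : lam 1 ≠ 0)
    (h2 : lam 2 ≠ 0) : 3 ≤ (univ.filter (fun i => lam i ≠ 0)).card := by
  have hsub : ({0, 1, 2} : Finset (Fin (r + 3))) ⊆ univ.filter (fun i => lam i ≠ 0) := by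
    intro i hi
    rw [Finset.mem_filter]
    refine ⟨mem_univ _, ?_⟩
    simp only [Finset.mem_insert, Finset.mem_singleton] at hi
    rcases hi with rfl | rfl | rfl
    · exact h0
    · exact h1
    · exact h2
  have hc : ({0, 1, 2} : Finset (Fin (r + 3))).card = 3 := by
    have e0 : ((0 : Fin (r + 3)) : ℕ) = 0 := rfl
    have e1 : ((1 : Fin (r + 3)) : ℕ) = 1 := rfl
    have e2 : ((2 : Fin (r + 3)) : ℕ) = 2 := rfl
    rw [Finset.card_insert_of_notMem, Finset.card_insert_of_notMem, Finset.card_singleton]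
    · rw [Finset.mem_singleton]
      intro h
      have := congrArg Fin.val h
      omega
    · rw [Finset.mem_insert, Finset.mem_singleton]
      rintro (h | h)
      · have := congrArg Fin.val h
        omega
      · have := congrArg Fin.val h
        omega
  exact hc.symm.le.trans (Finset.card_le_card hsub)

theorem main (hT : T2Stmt) (m n : ℕ) (hm : 3 ≤ m) (hmn : m < n) (r : ℕ) (lam : Fin (r + 3) → ℕ)
    (hl : Antitone lam) (hs : ∑ i, lam i = n * m)
    (h : lam 1 < m ∨ lam 2 ≠ 0 ∧ n * m + lam 1 + lam 2 ≤ lam 0 + (2 * n + 1)) :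
    schurCoeff (pleth (r + 3) m n) lam ≤ schurCoeff (pleth (r + 3) n m) lam := by
  obtain ⟨k, rfl⟩ : ∃ k, m = k + 2 := ⟨m - 2, by omega⟩
  obtain ⟨l, rfl⟩ : ∃ l, n = l + 1 := ⟨n - 1, by omega⟩
  rw [sc_eq l (k + 2) lam hl hs, sc_eq (k + 1) (l + 1) lam hl (by rw [hs]; ring)]
  set μ : Fin (r + 2) → ℤ := fun i => (lam i.succ : ℤ) with hμ
  have hμ0 : μ 0 = (lam 1 : ℤ) := rfl
  have hμ1 : μ 1 = (lam 2 : ℤ) := rfl
  rcases h with h | ⟨h2, h⟩
  · have e1 := cc_n (s := r + 2) l (show k + 2 ≤ l + 1 by omega) μ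
    have e2 := cc_k' (s := r + 1) (show k + 1 ≤ l by omega) (l + 1) μ (by rw [hμ0]; push_cast; omega)
    exact_mod_cast e1.trans e2
  · have hS : lam 0 + ∑ i : Fin (r + 2), lam i.succ = (l + 1) * (k + 2) := by
      rw [← Fin.sum_univ_succ, hs]
    have hμs : ∑ i, μ i = ((∑ i : Fin (r + 2), lam i.succ : ℕ) : ℤ) := by
      rw [Nat.cast_sum]
    obtain ⟨L, hL⟩ : ∃ L, L + 1 = (l + 1) * (k + 2) := by
      have : 0 < (l + 1) * (k + 2) := by positivity
      exact ⟨(l + 1) * (k + 2) - 1, by omega⟩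
    have hLl : l ≤ L := by nlinarith
    have e1 := cc_k (s := r + 2) hLl (k + 2) μ
    have e3 := cc_n' (s := r) k (show l + 1 ≤ L + 1 by omega) μ (by
      rw [hμ0, hμ1, hμs]
      zify at h hS
      push_cast at h hS ⊢
      linarith)
    let lam' : Fin (r + 3) → ℕ := Fin.cons (lam 0 + (L - l) * (k + 2)) (fun i => lam i.succ)
    have hl0 : lam' 0 = lam 0 + (L - l) * (k + 2) := rfl
    have hl' : Antitone lam' := by
      intro i j
      refine Fin.cases ?_ (fun i => ?_) i
      · refine Fin.cases (fun _ => le_rfl) (fun j _ => ?_) j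
        show lam j.succ ≤ lam 0 + (L - l) * (k + 2)
        exact (hl (Fin.zero_le _)).trans (Nat.le_add_right _ _)
      · refine Fin.cases (fun h => ?_) (fun j h => ?_) j
        · exact absurd h (by simp [Fin.le_def])
        · exact hl h
    have hs' : ∑ i, lam' i = (L + 1) * (k + 2) := by
      rw [Fin.sum_univ_succ]
      show lam 0 + (L - l) * (k + 2) + ∑ i : Fin (r + 2), lam i.succ = _
      obtain ⟨D, hD⟩ : ∃ D, L = l + D := ⟨L - l, by omega⟩
      have hD' : L - l = D := by omega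
      rw [hD', hD]
      linarith
    have h0' : lam' 0 ≠ 0 := by
      have : lam 2 ≤ lam 0 := hl (Fin.zero_le _)
      rw [hl0]
      omega
    have h1' : lam' 1 ≠ 0 := by
      have : lam 2 ≤ lam 1 := hl (by rw [Fin.le_def]; show 1 ≤ 2; norm_num)
      show lam 1 ≠ 0
      omega
    have e2 := hT (k + 2) (L + 1) hm (by omega) (r + 2) lam' hl' hs'
      (three_le_card lam' h0' h1' h2) (by
        rw [hl0]
        show (L + 1) * (k + 1) ≤ _
        obtain ⟨D, hD⟩ : ∃ D, L = l + D := ⟨L - l, by omega⟩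
        have hD' : L - l = D := by omega
        rw [hD']
        have h5 : ∑ i : Fin (r + 2), lam i.succ ≤ L + 1 := by omega
        have h6 : (L + 1) * (k + 1) + (L + 1) = (L + 1) * (k + 2) := by ring
        have h7 : (L + 1) * (k + 2) = (l + 1) * (k + 2) + D * (k + 2) := by rw [hD]; ring
        omega)
    rw [sc_eq L (k + 2) lam' hl' hs', sc_eq (k + 1) (L + 1) lam' hl' (by rw [hs']; ring)] at e2
    have e4 : (fun i => (lam' i.succ : ℤ)) = μ := rfl
    rw [e4] at e2
    have e5 : cc L (k + 2) μ ≤ cc (k + 1) (L + 1) μ := by exact_mod_cast e2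
    exact_mod_cast e1.trans (e5.trans e3)

end T4

end Pool.Agent.Lib.MP_a688ad_al
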