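import Pool.Agent.Lib.MP_a688ad_al.T4.Kil

/-!
# The first parameter: multiplication by `X(0, 0^k)`
-/

set_option autoImplicit false

open MvPolynomial Finset

namespace Pool.Agent.Lib.MP_a688ad_al

namespace T4

open T2

section

variable {s k : ℕ}

theorem DE_zz {i j : Fin (s + 1)} (hj : j ≠ 0) :
    DE i j (X (zz s k) : MvPolynomial (Ib (s + 1) k) ℂ) = 0 := by
  rw [DE_X]
  have h1 : (zz s k).1 ≠ j := fun h => hj h.symm
  have h2 : (zz s k).2.1.count j = 0 := by
    show (Multiset.replicate k (0 : Fin (s + 1))).count j = 0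
    rw [Multiset.count_replicate, if_neg (fun h => hj h.symm)]
  rw [if_neg h1, h2, Nat.cast_zero, zero_smul, add_zero]

theorem WT_zz : WT (zz s k) = (((k : ℤ) + 1) • (sg 0 : Fin (s + 1) → ℤ), 1) := by
  unfold WT wt
  have : ((zz s k).2.1.map sg).sum = (k : ℤ) • (sg 0 : Fin (s + 1) → ℤ) := by
    show ((Multiset.replicate k (0 : Fin (s + 1))).map sg).sum = _
    rw [Multiset.map_replicate, Multiset.sum_replicate, natCast_zsmul]
  have e : sg (zz s k).1 + (k : ℤ) • (sg 0 : Fin (s + 1) → ℤ) = ((k : ℤ) + 1) • sg 0 := by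
    rw [add_smul, one_smul]
    exact add_comm (sg 0) ((k : ℤ) • (sg 0 : Fin (s + 1) → ℤ))
  rw [this, e]

theorem mul_hom {F : MvPolynomial (Ib (s + 1) k) ℂ} {ν : Fin (s + 1) → ℤ} {n : ℕ} :
    IsWeightedHomogeneous WT (X (zz s k) * F) (ν + ((k : ℤ) + 1) • sg 0, ((n + 1 : ℕ) : ℤ))
      ↔ IsWeightedHomogeneous WT F (ν, (n : ℤ)) := by
  have e : ((ν + ((k : ℤ) + 1) • sg 0, ((n + 1 : ℕ) : ℤ)) : (Fin (s + 1) → ℤ) × ℤ)
      = WT (zz s k) + (ν, (n : ℤ)) := by
    rw [WT_zz, Prod.mk_add_mk, add_comm ν]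
    push_cast
    rw [add_comm (n : ℤ)]
  rw [e]
  constructor
  · intro h d hd
    have h1 : coeff (Finsupp.single (zz s k) 1 + d) (X (zz s k) * F) ≠ 0 := by
      rw [coeff_X_mul]
      exact hd
    have h2 := h h1
    rw [map_add, Finsupp.weight_single, one_smul] at h2
    exact add_left_cancel h2
  · intro h
    exact (isWeightedHomogeneous_X ℂ WT (zz s k)).mul h

theorem mul_HW {F : MvPolynomial (Ib (s + 1) k) ℂ} {ν : Fin (s + 1) → ℤ} {n : ℕ} :
    X (zz s k) * F ∈ (Gl (s + 1) k (n + 1)).HW (ν + ((k : ℤ) + 1) • sg 0)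
      ↔ F ∈ (Gl (s + 1) k n).HW ν := by
  have h0 : ∀ i j : Fin (s + 1), i < j → j ≠ 0 := by
    rintro i j h rfl
    exact absurd h (Fin.not_lt_zero i)
  have h1 : ∀ i j : Fin (s + 1), i < j → DE i j (X (zz s k) * F) = X (zz s k) * DE i j F := by
    intro i j h
    rw [Derivation.leibniz, DE_zz (h0 i j h), smul_zero, add_zero, smul_eq_mul]
  rw [GlFam.mem_HW, GlFam.mem_HW, mem_Gl, mem_Gl, mul_hom]
  refine and_congr_right fun _ => ?_
  constructor
  · intro h i j hij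
    have h2 : DE i j (X (zz s k) * F) = 0 := h i j hij
    rw [h1 i j hij] at h2
    exact (mul_eq_zero.1 h2).resolve_left (X_ne_zero _)
  · intro h i j hij
    have h2 : DE i j F = 0 := h i j hij
    show DE i j (X (zz s k) * F) = 0
    rw [h1 i j hij, h2, mul_zero]

/-- The multiplicity does not decrease with the first parameter. -/
theorem mul_le (n : ℕ) (ν : Fin (s + 1) → ℤ) : Module.finrank ℂ ((Gl (s + 1) k n).HW ν)
    ≤ Module.finrank ℂ ((Gl (s + 1) k (n + 1)).HW (ν + ((k : ℤ) + 1) • sg 0)) := by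
  have := fd_HW (r := s + 1) (k := k) (n := n + 1) (ν + ((k : ℤ) + 1) • sg 0)
  let f : (Gl (s + 1) k n).HW ν →ₗ[ℂ] (Gl (s + 1) k (n + 1)).HW (ν + ((k : ℤ) + 1) • sg 0) :=
    (LinearMap.mulLeft ℂ (X (zz s k) : MvPolynomial (Ib (s + 1) k) ℂ)).restrict
      (fun F hF => mul_HW.2 hF)
  apply LinearMap.finrank_le_finrank_of_injective (f := f)
  intro F G h
  apply Subtype.ext
  have h1 : X (zz s k) * F.1 = X (zz s k) * G.1 := congrArg Subtype.val h
  exact mul_left_cancel₀ (X_ne_zero _) h1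

end

/-! ## Stability in the first parameter -/

section

variable {s l : ℕ}

theorem DE_vA {a j : Fin (s + 1)} (hj : j ≠ 0) (i : Fin (s + 1)) :
    DE a j (X (vA (l + 1) i) : MvPolynomial (Ib (s + 1) (l + 1)) ℂ)
      = if i = j then X (vA (l + 1) a) else 0 := by
  rw [DE_X]
  have h2 : (vA (l + 1) i).2.1.count j = 0 := by
    show (Multiset.replicate (l + 1) (0 : Fin (s + 1))).count j = 0
    rw [Multiset.count_replicate, if_neg (fun h => hj h.symm)]
  rw [h2, Nat.cast_zero, zero_smul, add_zero]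
  rfl

theorem DE_vB {a j : Fin (s + 1)} (hj : j ≠ 0) (i : Fin (s + 1)) :
    DE a j (X (vB l i) : MvPolynomial (Ib (s + 1) (l + 1)) ℂ)
      = if i = j then X (vB l a) else 0 := by
  rw [DE_X]
  have h1 : (vB l i).1 ≠ j := fun h => hj h.symm
  rw [if_neg h1, zero_add]
  by_cases h : i = j
  · rw [if_pos h]
    subst h
    have h2 : (vB l i).2.1.count i = 1 := by
      show (i ::ₘ Multiset.replicate l (0 : Fin (s + 1))).count i = 1
      rw [Multiset.count_cons_self, Multiset.count_replicate, if_neg (fun h => hj h.symm)]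
    have h3 : i ∈ (vB l i).2.1 := by
      show i ∈ i ::ₘ Multiset.replicate l (0 : Fin (s + 1))
      exact Multiset.mem_cons_self _ _
    rw [h2, Nat.cast_one, one_smul]
    congr 1
    refine Prod.ext rfl (Subtype.ext ?_)
    show (rp (vB l i).2 i a).1 = _
    rw [rp_val a h3]
    show a ::ₘ (i ::ₘ Multiset.replicate l (0 : Fin (s + 1))).erase i = _
    rw [Multiset.erase_cons_head]
    rfl
  · have h2 : (vB l i).2.1.count j = 0 := by
      show (i ::ₘ Multiset.replicate l (0 : Fin (s + 1))).count j = 0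
      rw [Multiset.count_cons_of_ne (fun h' => h h'.symm), Multiset.count_replicate,
        if_neg (fun h => hj h.symm)]
    rw [if_neg h, h2, Nat.cast_zero, zero_smul]

theorem vA_ne_vB {i j : Fin (s + 1)} (hi : i ≠ 0) : (vA (l + 1) i : Ib (s + 1) (l + 1)) ≠ vB l j :=
  fun h => hi (congrArg Prod.fst h)

theorem vA_inj {i j : Fin (s + 1)} (h : (vA (l + 1) i : Ib (s + 1) (l + 1)) = vA (l + 1) j) : i = j :=
  congrArg Prod.fst h

theorem vB_inj {i j : Fin (s + 1)} (h : (vB l i : Ib (s + 1) (l + 1)) = vB l j) : i = j := by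
  have h1 : (i ::ₘ Multiset.replicate l (0 : Fin (s + 1))) = j ::ₘ Multiset.replicate l 0 :=
    congrArg (fun q : Ib (s + 1) (l + 1) => q.2.1) h
  rwa [Multiset.cons_inj_left] at h1

theorem pii_DE {F : MvPolynomial (Ib (s + 1) (l + 1)) ℂ} (hF : pii s l F = 0) {a j : Fin (s + 1)}
    (ha : ¬ kil (vA (l + 1) a : Ib (s + 1) (l + 1))) (hb : ¬ kil (vB l a : Ib (s + 1) (l + 1)))
    (hj : j ≠ 0) :
    pii s l (DE a j F) = pii s l (pderiv (vA (l + 1) j) F) * X (vA (l + 1) a)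
      + pii s l (pderiv (vB l j) F) * X (vB l a) := by
  classical
  rw [der_sum (DE a j) F, map_sum]
  rw [Fintype.sum_eq_add (vA (l + 1) j) (vB l j) (vA_ne_vB hj)]
  · rw [map_mul, map_mul, DE_vA hj, DE_vB hj, if_pos rfl, if_pos rfl, pii_X ha, pii_X hb]
  · rintro p ⟨hp1, hp2⟩
    rw [map_mul]
    by_cases hp : kil p
    · have h1 : DE a j (X p : MvPolynomial (Ib (s + 1) (l + 1)) ℂ) = 0 := by
        rcases hp with rfl | ⟨i, _, rfl | rfl⟩
        · exact DE_zz hj
        · rw [DE_vA hj, if_neg]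
          rintro rfl
          exact hp1 rfl
        · rw [DE_vB hj, if_neg]
          rintro rfl
          exact hp2 rfl
      rw [h1, map_zero, mul_zero]
    · rw [← pd_pii hp, hF, map_zero, zero_mul]

end

section

variable {s l : ℕ}

theorem nkil_A {a : Fin (s + 3)} (h0 : a ≠ 0) (h3 : (a : ℕ) < 3) :
    ¬ kil (vA (l + 1) a : Ib (s + 3) (l + 1)) := by
  rintro (h | ⟨j, hj, h | h⟩)
  · exact h0 (congrArg Prod.fst h)
  · have := vA_inj h
    omega
  · exact vA_ne_vB h0 h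

theorem nkil_B {a : Fin (s + 3)} (h0 : a ≠ 0) (h3 : (a : ℕ) < 3) :
    ¬ kil (vB l a : Ib (s + 3) (l + 1)) := by
  rintro (h | ⟨j, hj, h | h⟩)
  · have h1 : (a ::ₘ Multiset.replicate l (0 : Fin (s + 3))) = Multiset.replicate (l + 1) 0 :=
      congrArg (fun q : Ib (s + 3) (l + 1) => q.2.1) h
    have h2 : a ∈ Multiset.replicate (l + 1) (0 : Fin (s + 3)) := by
      rw [← h1]
      exact Multiset.mem_cons_self _ _
    exact h0 (Multiset.eq_of_mem_replicate h2)
  · have : j ≠ 0 := by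
      rintro rfl
      simp at hj
    exact vA_ne_vB this h.symm
  · have := vB_inj h
    omega

theorem one_ne : (1 : Fin (s + 3)) ≠ 0 := by
  intro h
  have := congrArg Fin.val h
  simp at this

theorem two_ne : (2 : Fin (s + 3)) ≠ 0 := by
  intro h
  have : ((2 : Fin (s + 3)) : ℕ) = 0 := by rw [h]; rfl
  have h2 : ((2 : Fin (s + 3)) : ℕ) = 2 := rfl
  omega

theorem det_ne : (X (vA (l + 1) 1) * X (vB l 2) - X (vA (l + 1) 2) * X (vB l 1) :
    MvPolynomial (Ib (s + 3) (l + 1)) ℂ) ≠ 0 := by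
  classical
  intro h
  have h1 := congrArg (eval (fun p => if p = vA (l + 1) 1 ∨ p = vB l 2 then (1 : ℂ) else 0)) h
  rw [map_sub, map_mul, map_mul, eval_X, eval_X, eval_X, eval_X, map_zero] at h1
  have e : ((vA (l + 1) 2 : Ib (s + 3) (l + 1)) = vA (l + 1) 1
      ∨ (vA (l + 1) 2 : Ib (s + 3) (l + 1)) = vB l 2) ↔ False := by
    rw [iff_false]
    rintro (h2 | h2)
    · have h3 := congrArg Fin.val (vA_inj h2)
      have h4 : ((2 : Fin (s + 3)) : ℕ) = 2 := rfl
      have h5 : ((1 : Fin (s + 3)) : ℕ) = 1 := rfl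
      omega
    · exact vA_ne_vB two_ne h2
  rw [if_pos (Or.inl rfl), if_pos (Or.inr rfl), if_neg (e.not.2 not_false)] at h1
  norm_num at h1

/-- The equations which are used. -/
def HH (F : MvPolynomial (Ib (s + 3) (l + 1)) ℂ) : Prop :=
  ∀ j : Fin (s + 3), 3 ≤ (j : ℕ) → DE 1 j F = 0 ∧ DE 2 j F = 0

theorem key {F : MvPolynomial (Ib (s + 3) (l + 1)) ℂ} (h : HH F) (hF : pii (s + 2) l F = 0)
    {j : Fin (s + 3)} (hj : 3 ≤ (j : ℕ)) :
    pii (s + 2) l (pderiv (vA (l + 1) j) F) = 0 ∧ pii (s + 2) l (pderiv (vB l j) F) = 0 := by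
  have hj0 : j ≠ 0 := by
    rintro rfl
    simp at hj
  have e1 := pii_DE hF (nkil_A one_ne (by show 1 < 3; norm_num))
    (nkil_B one_ne (by show 1 < 3; norm_num)) hj0
  have e2 := pii_DE hF (nkil_A two_ne (by show 2 < 3; norm_num))
    (nkil_B two_ne (by show 2 < 3; norm_num)) hj0
  rw [(h j hj).1, map_zero] at e1
  rw [(h j hj).2, map_zero] at e2
  have hd := det_ne (s := s) (l := l)
  constructor
  · have e3 : pii (s + 2) l (pderiv (vA (l + 1) j) F)
        * (X (vA (l + 1) 1) * X (vB l 2) - X (vA (l + 1) 2) * X (vB l 1)) = 0 := by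
      linear_combination (-X (vB l 2)) * e1 + X (vB l 1) * e2
    exact (mul_eq_zero.1 e3).resolve_right hd
  · have e3 : pii (s + 2) l (pderiv (vB l j) F)
        * (X (vA (l + 1) 1) * X (vB l 2) - X (vA (l + 1) 2) * X (vB l 1)) = 0 := by
      linear_combination (X (vA (l + 1) 2)) * e1 - X (vA (l + 1) 1) * e2
    exact (mul_eq_zero.1 e3).resolve_right hd

theorem HH_pd {F : MvPolynomial (Ib (s + 3) (l + 1)) ℂ} (h : HH F) {i : Fin (s + 3)}
    (hi : 3 ≤ (i : ℕ)) : HH (pderiv (vA (l + 1) i) F) ∧ HH (pderiv (vB l i) F) := by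
  have h1 : ((1 : Fin (s + 3)) : ℕ) = 1 := rfl
  have h2 : ((2 : Fin (s + 3)) : ℕ) = 2 := rfl
  have key : ∀ a : Fin (s + 3), a ≠ 0 → (a : ℕ) < 3 → ∀ j : Fin (s + 3), DE a j F = 0 →
      DE a j (pderiv (vA (l + 1) i) F) = 0 ∧ DE a j (pderiv (vB l i) F) = 0 := by
    intro a ha0 ha j hF
    have hia : i ≠ a := by
      rintro rfl
      omega
    constructor
    · rw [← pd_DE0 a j (vA (l + 1) i) hia, hF, map_zero]
      intro h3
      exact ha0 (Multiset.eq_of_mem_replicate h3)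
    · rw [← pd_DE0 a j (vB l i) (fun h3 => ha0 h3.symm), hF, map_zero]
      intro h3
      have h3' : a ∈ i ::ₘ Multiset.replicate l (0 : Fin (s + 3)) := h3
      rcases Multiset.mem_cons.1 h3' with h4 | h4
      · exact hia h4.symm
      · exact ha0 (Multiset.eq_of_mem_replicate h4)
  constructor
  · intro j hj
    exact ⟨(key 1 one_ne (by omega) j (h j hj).1).1, (key 2 two_ne (by omega) j (h j hj).2).1⟩
  · intro j hj
    exact ⟨(key 1 one_ne (by omega) j (h j hj).1).2, (key 2 two_ne (by omega) j (h j hj).2).2⟩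

/-- If the substitution kills `F`, then `F` is divisible by `X(0, 0^k)`. -/
theorem zz_mem (N : ℕ) : ∀ (F : MvPolynomial (Ib (s + 3) (l + 1)) ℂ), HH F → pii (s + 2) l F = 0 →
    ∀ d : Ib (s + 3) (l + 1) →₀ ℕ, coeff d F ≠ 0 → d.degree = N → d (zz (s + 2) (l + 1)) ≠ 0 := by
  classical
  induction N with
  | zero =>
    intro F _ hF d hd hN
    exfalso
    apply hd
    rw [← coeff_pii (s := s + 2) (l := l) (d := d), hF, coeff_zero]
    intro p _
    rw [Finsupp.degree_eq_zero_iff] at hN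
    rw [hN]
    rfl
  | succ N ih =>
    intro F h hF d hd hN
    have h1 : ∃ p, kil p ∧ d p ≠ 0 := by
      by_contra hcon
      push Not at hcon
      apply hd
      rw [← coeff_pii (s := s + 2) (l := l) hcon, hF, coeff_zero]
    obtain ⟨p, hp, hdp⟩ := h1
    have h2 : ∀ q : Ib (s + 3) (l + 1), d q ≠ 0 → HH (pderiv q F) →
        pii (s + 2) l (pderiv q F) = 0 → d (zz (s + 2) (l + 1)) ≠ 0 := by
      intro q hq g1 g2
      have h3 : coeff (d - Finsupp.single q 1) (pderiv q F) ≠ 0 := by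
        rw [coeff_pderiv, Finsupp.sub_add_single_one_cancel hq]
        exact mul_ne_zero hd (Nat.cast_add_one_ne_zero _)
      have h4 : (d - Finsupp.single q 1 : Ib (s + 3) (l + 1) →₀ ℕ).degree = N := by
        have h5 := congrArg Finsupp.degree (Finsupp.sub_add_single_one_cancel hq)
        rw [map_add, Finsupp.degree_single, hN] at h5
        omega
      have h6 := ih (pderiv q F) g1 g2 _ h3 h4
      rw [Finsupp.tsub_apply] at h6
      omega
    rcases hp with rfl | ⟨j, hj, rfl | rfl⟩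
    · exact hdp
    · exact h2 _ hdp (HH_pd h hj).1 (key h hF hj).1
    · exact h2 _ hdp (HH_pd h hj).2 (key h hF hj).2

/-- Stability: nothing new appears in degree `n + 1` if `|μ| + μ_1 + μ_2 ≤ 2 n + 1`. -/
theorem dvd {n : ℕ} {ν : Fin (s + 3) → ℤ}
    (h : (∑ i : Fin (s + 2), ν i.succ) + ν 1 + ν 2 ≤ 2 * n + 1)
    {F : MvPolynomial (Ib (s + 3) (l + 1)) ℂ} (hF : F ∈ (Gl (s + 3) (l + 1) (n + 1)).HW ν) :
    ∃ G, F = X (zz (s + 2) (l + 1)) * G := by
  classical
  have h1 : ((1 : Fin (s + 3)) : ℕ) = 1 := rfl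
  have h2 : ((2 : Fin (s + 3)) : ℕ) = 2 := rfl
  have hH : HH F := fun j hj =>
    ⟨hF.2 1 j (by rw [Fin.lt_def]; omega), hF.2 2 j (by rw [Fin.lt_def]; omega)⟩
  have hp : pii (s + 2) l F = 0 := by
    by_contra hne
    obtain ⟨d, hd⟩ := MvPolynomial.ne_zero_iff.1 hne
    have hk : ∀ p, kil p → d p = 0 := by
      by_contra hcon
      push Not at hcon
      obtain ⟨p, hp, hp0⟩ := hcon
      exact hd (coeff_pii0 ⟨p, hp, hp0⟩ F)
    rw [coeff_pii hk] at hd
    have hw : Finsupp.weight WT d = (ν, ((n + 1 : ℕ) : ℤ)) := hF.1 hd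
    have hν : ∀ i, ν i = ∑ p ∈ d.support, (d p : ℤ) * wt p i := by
      intro i
      rw [← weight_fst, hw]
    have hdeg : ((n + 1 : ℕ) : ℤ) = ∑ p ∈ d.support, (d p : ℤ) := by
      have h3 := weight_snd d
      rw [hw, Finsupp.degree_apply] at h3
      push_cast at h3 ⊢
      exact h3
    have h4 : ∑ p ∈ d.support, (d p : ℤ) * 2 ≤ ∑ p ∈ d.support,
        (d p : ℤ) * ((∑ i : Fin (s + 2), wt p i.succ) + wt p 1 + wt p 2) := by
      refine Finset.sum_le_sum fun p hp => ?_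
      apply mul_le_mul_of_nonneg_left _ (Int.natCast_nonneg _)
      apply two_le
      intro hk'
      exact (Finsupp.mem_support_iff.1 hp) (hk p hk')
    have h5 : ∑ p ∈ d.support, (d p : ℤ) * ((∑ i : Fin (s + 2), wt p i.succ) + wt p 1 + wt p 2)
        = (∑ i : Fin (s + 2), ν i.succ) + ν 1 + ν 2 := by
      simp only [hν]
      rw [Finset.sum_comm, ← Finset.sum_add_distrib, ← Finset.sum_add_distrib]
      refine Finset.sum_congr rfl fun p _ => ?_
      rw [mul_add, mul_add, Finset.mul_sum]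
    rw [← Finset.sum_mul, ← hdeg, h5] at h4
    push_cast at h4
    omega
  have hz : ∀ d, coeff d F ≠ 0 → d (zz (s + 2) (l + 1)) ≠ 0 :=
    fun d hd => zz_mem d.degree F hH hp d hd rfl
  have hdv : (X (zz (s + 2) (l + 1)) : MvPolynomial (Ib (s + 3) (l + 1)) ℂ) ∣ F := by
    rw [X_dvd_iff_modMonomial_eq_zero]
    ext d
    rw [coeff_zero]
    by_cases hd : Finsupp.single (zz (s + 2) (l + 1)) 1 ≤ d
    · exact coeff_modMonomial_of_le F hd
    · rw [coeff_modMonomial_of_not_le F hd]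
      by_contra h3
      apply hd
      rw [Finsupp.single_le_iff]
      exact Nat.one_le_iff_ne_zero.2 (hz d h3)
  exact hdv

theorem mul_ge (n : ℕ) (ν : Fin (s + 3) → ℤ)
    (h : (∑ i : Fin (s + 2), ν i.succ) + ν 1 + ν 2 ≤ 2 * n + 1) :
    Module.finrank ℂ ((Gl (s + 3) (l + 1) (n + 1)).HW (ν + (((l + 1 : ℕ) : ℤ) + 1) • sg 0))
      ≤ Module.finrank ℂ ((Gl (s + 3) (l + 1) n).HW ν) := by
  have := fd_HW (r := s + 3) (k := l + 1) (n := n) ν
  have hle : (Gl (s + 3) (l + 1) (n + 1)).HW (ν + (((l + 1 : ℕ) : ℤ) + 1) • sg 0)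
      ≤ ((Gl (s + 3) (l + 1) n).HW ν).map
        (LinearMap.mulLeft ℂ (X (zz (s + 2) (l + 1)) : MvPolynomial (Ib (s + 3) (l + 1)) ℂ)) := by
    intro F hF
    have e : ∀ i : Fin (s + 2), (ν + (((l + 1 : ℕ) : ℤ) + 1) • sg 0 : Fin (s + 3) → ℤ) i.succ
        = ν i.succ := by
      intro i
      have e : (sg 0 : Fin (s + 3) → ℤ) i.succ = 0 := by
        unfold sg
        rw [Pi.single_apply, if_neg (Fin.succ_ne_zero i)]
      rw [Pi.add_apply, Pi.smul_apply, e, smul_zero, add_zero]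
    have e1 := e 0
    have e2 := e 1
    obtain ⟨G, rfl⟩ := dvd (n := n) (ν := ν + (((l + 1 : ℕ) : ℤ) + 1) • sg 0) (by
      simp only [e]
      have e1' : (ν + (((l + 1 : ℕ) : ℤ) + 1) • sg 0 : Fin (s + 3) → ℤ) 1 = ν 1 := e1
      have e2' : (ν + (((l + 1 : ℕ) : ℤ) + 1) • sg 0 : Fin (s + 3) → ℤ) 2 = ν 2 := e2
      rw [e1', e2']
      exact h) hF
    exact ⟨G, mul_HW.1 hF, rfl⟩
  exact (Submodule.finrank_mono hle).trans (Submodule.finrank_map_le _ _)

end

end T4

end Pool.Agent.Lib.MP_a688ad_al
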