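import Pool.Agent.Lib.MP_a688ad_al.T4.Der

/-!
# The second parameter: adding a letter `0` to the symmetric factor
-/

set_option autoImplicit false

open MvPolynomial Finset

namespace Pool.Agent.Lib.MP_a688ad_al

namespace T4

open T2

section

variable {s k : ℕ}

/-- One more letter `0` in the symmetric factor. -/
def up (p : Ib (s + 1) k) : Ib (s + 1) (k + 1) :=
  (p.1, ⟨0 ::ₘ p.2.1, by rw [Multiset.card_cons, p.2.2]⟩)

theorem up_inj : Function.Injective (up : Ib (s + 1) k → Ib (s + 1) (k + 1)) := by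
  rintro ⟨u, S⟩ ⟨v, T⟩ h
  have h1 : u = v := congrArg Prod.fst h
  have h3 : (0 : Fin (s + 1)) ::ₘ S.1 = 0 ::ₘ T.1 :=
    congrArg (fun q : Ib (s + 1) (k + 1) => q.2.1) h
  rw [Multiset.cons_inj_right] at h3
  rw [h1, Subtype.ext h3]

theorem wt_up (p : Ib (s + 1) k) : wt (up p) = wt p + sg 0 := by
  unfold wt up
  rw [Multiset.map_cons, Multiset.sum_cons]
  abel

theorem weight_up (u : Ib (s + 1) k →₀ ℕ) : Finsupp.weight WT (u.mapDomain up)
    = Finsupp.weight WT u + ((u.degree : ℤ) • sg 0, 0) := by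
  induction u using Finsupp.induction_linear with
  | zero =>
    rw [Finsupp.mapDomain_zero, map_zero, map_zero, map_zero, Nat.cast_zero, zero_smul]
    rfl
  | add u v hu hv =>
    rw [Finsupp.mapDomain_add, map_add, hu, hv, map_add, map_add, Nat.cast_add, add_smul]
    refine Prod.ext ?_ ?_
    · simp only [Prod.fst_add]
      abel
    · simp only [Prod.snd_add]
      abel
  | single p n =>
    rw [Finsupp.mapDomain_single, Finsupp.weight_single, Finsupp.weight_single,
      Finsupp.degree_single]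
    unfold WT
    rw [wt_up]
    refine Prod.ext ?_ ?_
    · simp only [Prod.fst_add, Prod.smul_fst, smul_add, natCast_zsmul]
    · simp

theorem up_hom {F : MvPolynomial (Ib (s + 1) k) ℂ} {ν : Fin (s + 1) → ℤ} {n : ℕ} :
    IsWeightedHomogeneous WT (rename up F) (ν + (n : ℤ) • sg 0, (n : ℤ))
      ↔ IsWeightedHomogeneous WT F (ν, (n : ℤ)) := by
  constructor
  · intro h u hu
    have h1 : coeff (u.mapDomain up) (rename up F) ≠ 0 := by
      rw [coeff_rename_mapDomain _ up_inj]
      exact hu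
    have h2 := h h1
    rw [weight_up] at h2
    have h3 := congrArg Prod.snd h2
    rw [Prod.snd_add, weight_snd, add_zero] at h3
    have h4 := congrArg Prod.fst h2
    rw [Prod.fst_add, h3] at h4
    refine Prod.ext (add_right_cancel h4) ?_
    rw [weight_snd]
    exact h3
  · intro h d hd
    obtain ⟨u, rfl, hu⟩ := coeff_rename_ne_zero _ _ _ hd
    have h1 := h hu
    have h2 := weight_snd u
    rw [h1] at h2
    rw [weight_up, h1, ← h2, Prod.mk_add_mk, add_zero]

theorem DE_up_X (i j : Fin (s + 1)) (hj : j ≠ 0) (p : Ib (s + 1) k) :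
    DE i j (X (up p) : MvPolynomial (Ib (s + 1) (k + 1)) ℂ)
      = rename up (DE i j (X p : MvPolynomial (Ib (s + 1) k) ℂ)) := by
  rw [DE_X, DE_X, map_add, map_smul, rename_X]
  congr 1
  · show (if p.1 = j then (X (i, (up p).2) : MvPolynomial _ ℂ) else 0) = _
    rw [apply_ite (rename up), rename_X, map_zero]
    rfl
  · have e1 : (up p).2.1.count j = p.2.1.count j := by
      show (0 ::ₘ p.2.1).count j = _
      rw [Multiset.count_cons_of_ne hj]
    rw [e1]
    by_cases h : j ∈ p.2.1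
    · congr 2
      refine Prod.ext rfl (Subtype.ext ?_)
      show (rp (up p).2 j i).1 = 0 ::ₘ (rp p.2 j i).1
      rw [rp_val i h, rp_val i (Multiset.mem_cons_of_mem h)]
      show i ::ₘ (0 ::ₘ p.2.1).erase j = _
      rw [Multiset.erase_cons_tail _ (fun h0 => hj h0.symm), Multiset.cons_swap]
    · rw [Multiset.count_eq_zero_of_notMem h, Nat.cast_zero, zero_smul, zero_smul]

theorem DE_up (i j : Fin (s + 1)) (hj : j ≠ 0) (F : MvPolynomial (Ib (s + 1) k) ℂ) :
    DE i j (rename up F) = rename up (DE i j F) := by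
  induction F using MvPolynomial.induction_on with
  | C a => rw [rename_C, derivation_C, derivation_C, map_zero]
  | add p q hp hq => rw [map_add, map_add, map_add, map_add, hp, hq]
  | mul_X p a hp =>
    rw [map_mul, rename_X, Derivation.leibniz, Derivation.leibniz, hp, DE_up_X i j hj, map_add]
    simp only [smul_eq_mul, map_mul, rename_X]

theorem up_HW {F : MvPolynomial (Ib (s + 1) k) ℂ} {ν : Fin (s + 1) → ℤ} {n : ℕ} :
    rename up F ∈ (Gl (s + 1) (k + 1) n).HW (ν + (n : ℤ) • sg 0) ↔ F ∈ (Gl (s + 1) k n).HW ν := by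
  have h0 : ∀ i j : Fin (s + 1), i < j → j ≠ 0 := by
    rintro i j h rfl
    exact absurd h (Fin.not_lt_zero i)
  rw [GlFam.mem_HW, GlFam.mem_HW, mem_Gl, mem_Gl, up_hom]
  refine and_congr_right fun _ => ?_
  constructor
  · intro h i j hij
    have h1 : DE i j (rename up F) = 0 := h i j hij
    rw [DE_up i j (h0 i j hij)] at h1
    show DE i j F = 0
    apply rename_injective _ up_inj
    rw [h1, map_zero]
  · intro h i j hij
    have h1 : DE i j F = 0 := h i j hij
    show DE i j (rename up F) = 0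
    rw [DE_up i j (h0 i j hij), h1, map_zero]

theorem fd_HW {r k n : ℕ} (ν : Fin r → ℤ) : FiniteDimensional ℂ ((Gl r k n).HW ν) :=
  Submodule.finiteDimensional_of_le (fun _ hv => hv.1 : (Gl r k n).HW ν ≤ (Gl r k n).G ν)

/-- The multiplicity does not decrease with the second parameter. -/
theorem up_le (n : ℕ) (ν : Fin (s + 1) → ℤ) : Module.finrank ℂ ((Gl (s + 1) k n).HW ν)
    ≤ Module.finrank ℂ ((Gl (s + 1) (k + 1) n).HW (ν + (n : ℤ) • sg 0)) := by
  have := fd_HW (r := s + 1) (k := k + 1) (n := n) (ν + (n : ℤ) • sg 0)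
  let f : (Gl (s + 1) k n).HW ν →ₗ[ℂ] (Gl (s + 1) (k + 1) n).HW (ν + (n : ℤ) • sg 0) :=
    (rename up : MvPolynomial (Ib (s + 1) k) ℂ →ₐ[ℂ] _).toLinearMap.restrict
      (fun F hF => up_HW.2 hF)
  apply LinearMap.finrank_le_finrank_of_injective (f := f)
  intro F G h
  apply Subtype.ext
  apply rename_injective _ up_inj
  exact congrArg Subtype.val h

end

/-! ## Stability in the second parameter -/

theorem sum_sg_count {r : ℕ} (S : Multiset (Fin r)) (i : Fin r) :
    (S.map sg).sum i = (S.count i : ℤ) := by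
  induction S using Multiset.induction_on with
  | empty => simp
  | cons a S ih =>
    rw [Multiset.map_cons, Multiset.sum_cons, Pi.add_apply, ih, Multiset.count_cons]
    push_cast
    unfold sg
    rw [Pi.single_apply]
    split_ifs with h
    · ring
    · ring

/-- A variable which occurs has no more letters `i` than the weight. -/
theorem wt_le_of_pderiv {r k n : ℕ} {F : MvPolynomial (Ib r k) ℂ} {ν : Fin r → ℤ}
    (hF : F ∈ (Gl r k n).G ν) {p : Ib r k} (hp : pderiv p F ≠ 0) (i : Fin r) : wt p i ≤ ν i := by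
  obtain ⟨d, hd, hdp⟩ := exists_mon hp
  have h1 : Finsupp.weight WT d = (ν, (n : ℤ)) := hF hd
  have h2 := weight_fst d i
  rw [h1] at h2
  rw [show ν i = ∑ q ∈ d.support, (d q : ℤ) * wt q i from h2]
  have h3 : (d p : ℤ) * wt p i ≤ ∑ q ∈ d.support, (d q : ℤ) * wt q i :=
    Finset.single_le_sum (f := fun q => (d q : ℤ) * wt q i)
      (fun q _ => mul_nonneg (Int.natCast_nonneg _) (wt_nonneg q i)) (Finsupp.mem_support_iff.2 hdp)
  refine le_trans ?_ h3
  have h4 : (1 : ℤ) ≤ (d p : ℤ) := by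
    exact_mod_cast Nat.one_le_iff_ne_zero.2 hdp
  have h5 := wt_nonneg p i
  nlinarith

variable {s k : ℕ}

theorem van {n : ℕ} {F : MvPolynomial (Ib (s + 2) (k + 1)) ℂ} {ν : Fin (s + 2) → ℤ}
    (hF : F ∈ (Gl (s + 2) (k + 1) n).HW ν) (h : ν 1 ≤ k) (c : ℕ) :
    ∀ p : Ib (s + 2) (k + 1), (0 : Fin (s + 2)) ∉ p.2.1 → k + 1 ≤ p.2.1.count 1 + c →
      pderiv p F = 0 := by
  induction c with
  | zero =>
    rintro ⟨i, S⟩ _ h1
    by_contra h2
    have h3 := wt_le_of_pderiv hF.1 h2 1
    have h4 : wt (i, S) 1 = sg i 1 + (S.1.count 1 : ℤ) := by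
      unfold wt
      rw [Pi.add_apply, sum_sg_count]
    have h5 := sg_nonneg i (1 : Fin (s + 2))
    have h6 : ((k + 1 : ℕ) : ℤ) ≤ (S.1.count 1 : ℤ) := by exact_mod_cast h1
    push_cast at h6
    omega
  | succ c ih =>
    rintro ⟨i, S⟩ h0 h1
    by_cases hc : k + 1 ≤ S.1.count 1 + c
    · exact ih (i, S) h0 hc
    have h2 : ∃ j ∈ S.1, j ≠ 1 := by
      by_contra hcon
      push Not at hcon
      have h3 : S.1.count 1 = Multiset.card S.1 :=
        Multiset.count_eq_card.2 fun x hx => (hcon x hx).symm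
      rw [S.2] at h3
      omega
    obtain ⟨j, hj, hj1⟩ := h2
    have hj0 : j ≠ 0 := by
      rintro rfl
      exact h0 hj
    have hlt : (1 : Fin (s + 2)) < j := by
      have e1 : (j : ℕ) ≠ 0 := fun h => hj0 (Fin.ext h)
      have e2 : (j : ℕ) ≠ 1 := fun h => hj1 (Fin.ext (by rw [h]; simp))
      rw [Fin.lt_def, Fin.val_one]
      omega
    have hU0 : (0 : Fin (s + 2)) ∉ (rp S j 1).1 := by
      rw [rp_val 1 hj, Multiset.mem_cons]
      rintro (h3 | h3)
      · exact absurd h3 (by simp)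
      · exact h0 (Multiset.mem_of_mem_erase h3)
    have hU1 : k + 1 ≤ (rp S j 1).1.count 1 + c := by
      rw [rp_val 1 hj, Multiset.count_cons_self, Multiset.count_erase_of_ne hj1.symm]
      have : k + 1 ≤ S.1.count 1 + (c + 1) := h1
      omega
    have e1 := ih (i, rp S j 1) hU0 hU1
    have e2 := ih (j, rp S j 1) hU0 hU1
    have e3 := pd_DE i 1 j S hj F
    have e4 : DE 1 j F = 0 := hF.2 1 j hlt
    rw [e4, map_zero, e1, e2, map_zero, smul_zero, zero_add, zero_add] at e3
    have e5 : ((S.1.count j : ℕ) : ℂ) ≠ 0 := by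
      exact_mod_cast (Multiset.count_pos.2 hj).ne'
    exact (smul_eq_zero.1 e3.symm).resolve_left e5

/-- Stability: nothing new appears if `k` is at least the second part. -/
theorem down_le (n : ℕ) (ν : Fin (s + 2) → ℤ) (h : ν 1 ≤ k) :
    Module.finrank ℂ ((Gl (s + 2) (k + 1) n).HW (ν + (n : ℤ) • sg 0))
      ≤ Module.finrank ℂ ((Gl (s + 2) k n).HW ν) := by
  have := fd_HW (r := s + 2) (k := k) (n := n) ν
  have hle : (Gl (s + 2) (k + 1) n).HW (ν + (n : ℤ) • sg 0)
      ≤ ((Gl (s + 2) k n).HW ν).map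
        (rename up : MvPolynomial (Ib (s + 2) k) ℂ →ₐ[ℂ] _).toLinearMap := by
    intro F hF
    have h1 : (ν + (n : ℤ) • sg 0 : Fin (s + 2) → ℤ) 1 ≤ k := by
      have e : (sg 0 : Fin (s + 2) → ℤ) 1 = 0 := by
        unfold sg
        rw [Pi.single_apply, if_neg (by simp)]
      rw [Pi.add_apply, Pi.smul_apply, e, smul_zero, add_zero]
      exact h
    have h2 : (↑F.vars : Set (Ib (s + 2) (k + 1))) ⊆ Set.range up := by
      rintro ⟨i, S⟩ hp
      have h3 := exists_of_mem_vars (Finset.mem_coe.1 hp)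
      have h4 : (0 : Fin (s + 2)) ∈ S.1 := by
        by_contra h5
        exact h3 (van hF h1 (k + 1) (i, S) h5 (by omega))
      refine ⟨(i, ⟨S.1.erase 0, ?_⟩), ?_⟩
      · rw [Multiset.card_erase_of_mem h4, S.2]
        rfl
      · refine Prod.ext rfl (Subtype.ext ?_)
        exact Multiset.cons_erase h4
    obtain ⟨G, hG⟩ := exists_rename_eq_of_vars_subset_range F up up_inj h2
    refine ⟨G, ?_, hG⟩
    rw [← hG] at hF
    exact up_HW.1 hF
  exact (Submodule.finrank_mono hle).trans (Submodule.finrank_map_le _ _)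

end T4

end Pool.Agent.Lib.MP_a688ad_al
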